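import Mathlib

set_option autoImplicit false

namespace Pool.Agent.Results.MP_43980c_co.NotAGroup

variable {P B : Type}

/-- `[x, y] > 1`. -/
def Nbr (I : P → B → Prop) (x y : P) : Prop := ∃ C D, C ≠ D ∧ I x C ∧ I y C ∧ I x D ∧ I y D

/-- The relation `∼ₐ` on blocks. -/
def SimA (I : P → B → Prop) (C D : B) : Prop :=
  (∀ x, I x C → ∃ y, I y D ∧ Nbr I x y) ∧ (∀ x, I x D → ∃ y, I y C ∧ Nbr I x y)

/-- An ordinary affine plane. -/
def IsAffinePlane (I : P → B → Prop) : Prop :=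
  (∀ x y, x ≠ y → ∃! L, I x L ∧ I y L) ∧
  (∀ x L, ¬ I x L → ∃! M, I x M ∧ ∀ y, ¬ (I y L ∧ I y M)) ∧
  (∃ x y z, ∀ L, ¬ (I x L ∧ I y L ∧ I z L))

/-- An affine Hjelmslev plane with parallelism `par`. -/
def IsAHPlane (I : P → B → Prop) (par : B → B → Prop) : Prop :=
  (∀ x y, ∃ C, I x C ∧ I y C) ∧
  Equivalence par ∧ (∀ p C, ∃! D, I p D ∧ par C D) ∧
  (∀ C D, C ≠ D → SimA I C D → ¬ ∃! x, I x C ∧ I x D) ∧
  ∃ (P' B' : Type) (I' : P' → B' → Prop) (μ : P → P') (ν : B → B'), IsAffinePlane I' ∧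
    Function.Surjective μ ∧ Function.Surjective ν ∧ (∀ x C, I x C → I' (μ x) (ν C)) ∧
    (∀ x' C', I' x' C' → ∃ x C, I x C ∧ μ x = x' ∧ ν C = C') ∧
    (∀ x y, μ x = μ y ↔ Nbr I x y) ∧ (∀ C D, ν C = ν D ↔ SimA I C D)

/-- An automorphism. -/
def IsAut (I : P → B → Prop) (τ : Equiv.Perm P × Equiv.Perm B) : Prop :=
  ∀ x C, I (τ.1 x) (τ.2 C) ↔ I x C

/-- A translation. -/
def IsTranslation (I : P → B → Prop) (par : B → B → Prop) (τ : Equiv.Perm P × Equiv.Perm B) :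
    Prop :=
  IsAut I τ ∧ (∃ C, ∀ D, par C D → τ.2 D = D) ∧ (τ = 1 ∨ ∀ x, τ.1 x ≠ x)

abbrev PP := Fin 4 × Fin 4
abbrev BB := Fin 6 × Fin 4

def ca : Fin 6 → Fin 4 := ![1, 1, 1, 1, 0, 2]
def cb : Fin 6 → Fin 4 := ![0, 1, 2, 3, 1, 1]

abbrev II (x : PP) (C : BB) : Prop := ca C.1 * x.1 + cb C.1 * x.2 = C.2

def red (a : Fin 4) : Fin 2 := ![0, 1, 0, 1] a
def mu (x : PP) : Fin 2 × Fin 2 := (red x.1, red x.2)
def nu (C : BB) : Fin 3 × Fin 2 := (![0, 1, 0, 1, 2, 2] C.1, red C.2)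
def ca' : Fin 3 → Fin 2 := ![1, 1, 0]
def cb' : Fin 3 → Fin 2 := ![0, 1, 1]
abbrev II' (x : Fin 2 × Fin 2) (C : Fin 3 × Fin 2) : Prop := ca' C.1 * x.1 + cb' C.1 * x.2 = C.2

lemma nbr_iff : ∀ x y : PP, mu x = mu y ↔ Nbr II x y := by
  unfold Nbr
  decide +kernel

lemma sim_iff : ∀ C D : BB, nu C = nu D ↔ SimA II C D := by
  unfold SimA
  simp only [← nbr_iff]
  decide +kernel

def sP : Equiv.Perm PP where
  toFun x := (x.1 + 2 * x.2 + 1, x.2)
  invFun x := (x.1 + 2 * x.2 + 3, x.2)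
  left_inv := by decide +kernel
  right_inv := by decide +kernel

def sB : Equiv.Perm BB where
  toFun C := (![2, 3, 0, 1, 4, 5] C.1, C.2 + ca C.1)
  invFun C := (![2, 3, 0, 1, 4, 5] C.1, C.2 - ca C.1)
  left_inv := by decide +kernel
  right_inv := by decide +kernel

def tP : Equiv.Perm PP where
  toFun x := (x.1 + 3, x.2)
  invFun x := (x.1 + 1, x.2)
  left_inv := by decide +kernel
  right_inv := by decide +kernel

def tB : Equiv.Perm BB where
  toFun C := (C.1, C.2 - ca C.1)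
  invFun C := (C.1, C.2 + ca C.1)
  left_inv := by decide +kernel
  right_inv := by decide +kernel

theorem result : ∃ (P B : Type) (I : P → B → Prop) (par : B → B → Prop), IsAHPlane I par ∧
    ∃ σ τ : Equiv.Perm P × Equiv.Perm B, IsTranslation I par σ ∧ IsTranslation I par τ ∧
      (∀ C D, par (σ.2 C) (σ.2 D) ↔ par C D) ∧ (∀ C D, par (τ.2 C) (τ.2 D) ↔ par C D) ∧
      ¬ IsTranslation I par (σ * τ) := by
  refine ⟨PP, BB, II, fun C D => C.1 = D.1, ⟨by decide +kernel, ⟨fun _ => rfl, Eq.symm, Eq.trans⟩,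
    ?_, ?_, Fin 2 × Fin 2, Fin 3 × Fin 2, II', mu, nu, ⟨?_, ?_, by decide +kernel⟩,
    by decide +kernel, by decide +kernel, by decide +kernel, by decide +kernel, nbr_iff, sim_iff⟩,
    (sP, sB), (tP, tB), ⟨?_, ⟨(4, 0), by decide +kernel⟩, Or.inr (by decide +kernel)⟩,
    ⟨?_, ⟨(4, 0), by decide +kernel⟩, Or.inr (by decide +kernel)⟩, by decide +kernel,
    by decide +kernel, ?_⟩
  · unfold ExistsUnique
    decide +kernel
  · simp only [← sim_iff]
    unfold ExistsUnique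
    decide +kernel
  · unfold ExistsUnique
    decide +kernel
  · unfold ExistsUnique
    decide +kernel
  · unfold IsAut
    decide +kernel
  · unfold IsAut
    decide +kernel
  · rintro ⟨-, -, h | h⟩
    · have h1 := congrArg (fun g : Equiv.Perm PP × Equiv.Perm BB => g.1 (0, 1)) h
      revert h1
      decide +kernel
    · exact h (0, 0) (by decide +kernel)

end Pool.Agent.Results.MP_43980c_co.NotAGroup
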